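import Pool.Agent.Q183.GS.Fin

/-!
# The exceptional set of the abcd conjecture

Let `n ≥ 4` and let `K` be a number field. We show without any hypothesis that the exceptional set
`Z` of the `n`-term abc inequality `h(P) < (1 + ε) rad(P) + C` in the hyperplane
`H : z_1 + … + z_n = 0` cannot be chosen independently of `ε`: its degree is at least `ε ^ (-2)`, since
it contains the cones over the curves `(t ^ d : -(t + 1) ^ d : 1)` for all odd `d < 2 + 2 / ε` (and over
further ones). We also show that the `ε` cannot be replaced by any function which tends to zero, even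
for generic sequences of points: for every function `ψ` which tends to infinity there are points `P_m`
of `H`, only finitely many of them in each proper closed subset of `H`, with
`h(P_m) ≥ rad(P_m) + h(P_m) / ψ(h(P_m))` and `h(P_m) → ∞`.
-/

set_option autoImplicit false

namespace Pool.Agent.Results.MP_7475bd_nt.ExceptionalSet

open NumberField IsDedekindDomain MvPolynomial

variable {K : Type} [Field K] [NumberField K] {n : ℕ}

/-- the height `h` of the problem, with Mathlib's logarithmic height -/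
noncomputable def ht (P : Fin n → K) : ℝ := Height.logHeight P / Module.finrank ℚ K

/-- the primes at which the valuations of the coordinates are not all equal -/
def bad (P : Fin n → K) : Set (HeightOneSpectrum (𝓞 K)) :=
  {v | ∃ i i', v.valuation K (P i) ≠ v.valuation K (P i')}

/-- the radical of the problem -/
noncomputable def rad (P : Fin n → K) : ℝ :=
  (∑ᶠ v ∈ bad P, Real.log (Ideal.absNorm v.asIdeal)) / Module.finrank ℚ K

/-- the points of the hyperplane `H` with nonzero coordinates -/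
def OnH (z : Fin n → K) : Prop := ∑ i, z i = 0 ∧ ∀ i, z i ≠ 0

/-- `F` is a form of degree `δ` which does not vanish on `H` -/
def ProperForm (F : MvPolynomial (Fin n) K) (δ : ℕ) : Prop :=
  F.IsHomogeneous δ ∧ ∃ z : Fin n → K, ∑ i, z i = 0 ∧ eval z F ≠ 0

/-- `4` for `d = 1 mod 6`, `2` for the other odd `d`, and `1` for even `d` -/
def gain (d : ℕ) : ℕ := if d % 6 = 1 then 4 else if d % 2 = 1 then 2 else 1

/-- the points of `H` over the point `(t ^ d : -(t + 1) ^ d : 1)`, `t` in `K` -/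
def Cone (hn : 4 ≤ n) (d : ℕ) : Set (Fin n → K) :=
  {z | ∑ i, z i = 0 ∧ ∃ t a : K, a ≠ 0 ∧ z ⟨0, by omega⟩ = a * t ^ d ∧
    z ⟨1, by omega⟩ = -a * (t + 1) ^ d ∧ z ⟨2, by omega⟩ = a}

private theorem ht_perm (π : Equiv.Perm (Fin n)) (z : Fin n → K) : ht (z ∘ π) = ht z := by
  unfold ht
  rw [Height.logHeight_comp_equiv]

private theorem rad_perm (π : Equiv.Perm (Fin n)) (z : Fin n → K) : rad (z ∘ π) = rad z := by
  unfold rad
  have h : bad (z ∘ π) = bad z := by
    ext v
    constructor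
    · rintro ⟨i, i', h⟩
      exact ⟨π i, π i', h⟩
    · rintro ⟨i, i', h⟩
      refine ⟨π.symm i, π.symm i', ?_⟩
      simpa using h
  rw [h]

/-- **Main theorem**, for all number fields `K` and all `n ≥ 4`.
(1) If the inequality `h < (1 + ε) rad + C` holds on `H` outside the hypersurface `F = 0`, then `F`
vanishes on the cones (for all orders of the coordinates) for all `d ≥ 2` with
`(1 + ε) (d - gain d) < d`, the degree of `F` is at least the sum of these `d`, and hence at least
`1 / ε ^ 2` if `ε ≤ 1`.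
(2) For every `ψ` which tends to infinity there is a generic sequence `P_m` of points of `H` with
`h(P_m) → ∞` and `h(P_m) ≥ rad(P_m) + h(P_m) / ψ(h(P_m))`. -/
theorem result (K : Type) [Field K] [NumberField K] (n : ℕ) (hn : 4 ≤ n) :
    (∀ (F : MvPolynomial (Fin n) K) (δ : ℕ), ProperForm F δ → ∀ ε C : ℝ, 0 < ε →
      (∀ z : Fin n → K, OnH z → eval z F ≠ 0 → ht z < (1 + ε) * rad z + C) →
      (∀ d : ℕ, 2 ≤ d → (1 + ε) * ((d : ℝ) - gain d) < d → ∀ (π : Equiv.Perm (Fin n))
        (z : Fin n → K), z ∘ π ∈ Cone hn d → eval z F = 0) ∧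
      (∀ D : Finset ℕ, (∀ d ∈ D, 2 ≤ d ∧ (1 + ε) * ((d : ℝ) - gain d) < d) → ∑ d ∈ D, d ≤ δ) ∧
      (ε ≤ 1 → 1 / ε ^ 2 ≤ (δ : ℝ))) ∧
    ∀ ψ : ℝ → ℝ, Filter.Tendsto ψ Filter.atTop Filter.atTop →
      ∃ P : ℕ → Fin n → K, (∀ m, OnH (P m)) ∧
        Filter.Tendsto (fun m => ht (P m)) Filter.atTop Filter.atTop ∧
        (∀ m, rad (P m) + ht (P m) / ψ (ht (P m)) ≤ ht (P m)) ∧
        ∀ (F : MvPolynomial (Fin n) K) (δ : ℕ), ProperForm F δ → {m | eval (P m) F = 0}.Finite := by
  obtain ⟨r, rfl⟩ : ∃ r, n = 3 + r + 1 := ⟨n - 4, by omega⟩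
  obtain ⟨σ⟩ : Nonempty (K →+* ℂ) := inferInstance
  refine ⟨?_, ?_⟩
  · rintro F δ ⟨hF, hne⟩ ε C hε h
    have hcone := Pool.Agent.Q183.GS.cone F ε C hε (fun z h1 h2 h3 => h z ⟨h1, h2⟩ h3)
    have hsum : ∀ D : Finset ℕ, (∀ d ∈ D, 2 ≤ d ∧ (1 + ε) * ((d : ℝ) - gain d) < d) →
        ∑ d ∈ D, d ≤ δ := fun D hD =>
      Pool.Agent.Q183.GS.degs hF (Pool.Agent.Q183.GS.red_ne hne) σ D (fun d hd => (hD d hd).1)
        fun d hd t c => hcone d (hD d hd).1 (hD d hd).2 σ t c
    refine ⟨?_, hsum, fun hε1 => Pool.Agent.Q183.GS.quad hε hε1 hsum⟩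
    rintro d hd hdε π z ⟨h1, t, a, ha, h2, h3, h4⟩
    have hcone' := Pool.Agent.Q183.GS.cone (rename π.symm F) ε C hε (fun z h1 h2 h3 => by
      rw [eval_rename] at h3
      have h5 := h (z ∘ π.symm) ⟨by
        rw [← h1]
        exact Equiv.sum_comp π.symm z, fun i => h2 _⟩ h3
      rw [ht_perm, rad_perm] at h5
      exact h5)
    have h6 := Pool.Agent.Q183.GS.coneK (hF.rename_isHomogeneous (f := π.symm)) σ d
      (fun t c => hcone' d hd hdε σ t c) (z ∘ π) h1 t a ha h2 h3 h4
    rw [eval_rename] at h6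
    have h7 : (z ∘ π) ∘ π.symm = z := by
      funext i
      simp
    rwa [h7] at h6
  · intro ψ hψ
    obtain ⟨P, h1, h2⟩ := Pool.Agent.Q183.GS.generic (K := K) r ψ hψ
    refine ⟨P, fun m => ⟨(h1 m).1, (h1 m).2.1⟩, ?_, fun m => (h1 m).2.2.2, ?_⟩
    · exact Filter.tendsto_atTop_mono (fun m => (h1 m).2.2.1) tendsto_natCast_atTop_atTop
    · rintro F δ ⟨hF, hne⟩
      exact h2 F δ hF (Pool.Agent.Q183.GS.red_ne hne)

end Pool.Agent.Results.MP_7475bd_nt.ExceptionalSet
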